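import Pool.Agent.MP_151d89_pr.H21.Corner
import Pool.Agent.MP_151d89_pr.H45.Move

/-!
A vertical ridge leg of length n below a site and the horizontal ridge legs starting at the site:
positive association, one flip, and the corner bound.
-/

set_option autoImplicit false
open MeasureTheory Finset

namespace Pool.Agent.MP_151d89_pr.H21
open Pool.Agent.MP_151d89_pr.H82 Pool.Agent.MP_151d89_pr.H33 Pool.Agent.MP_151d89_pr.H67
  Pool.Agent.MP_151d89_pr.H30 Pool.Agent.MP_151d89_pr.H58 Pool.Agent.MP_151d89_pr.H45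
open Classical

variable {μ : Measure Conf}

/-- the tower which starts at (x + t, y), runs to the west and can be moved down covers (x, y) -/
def DD (x y : ℤ) (t : ℕ) : Set Conf :=
  {f | f (x + t, y) = f (x, y) - t ∧ f (x + t + 1, y) = f (x, y) - t - 1 ∧
    f (x + t, y + 1) = f (x, y) - t - 1 ∧ f (x + t, y - 1) = f (x, y) - t - 1}

theorem meas_eq (u v : ℤ × ℤ) (c : ℤ) : MeasurableSet {f : Conf | f u = f v + c} :=
  measurableSet_eq_fun (by fun_prop) (by fun_prop)

theorem meas_DD (x y : ℤ) (t : ℕ) : MeasurableSet (DD x y t) :=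
  (measurableSet_eq_fun (by fun_prop) (by fun_prop)).inter
    ((measurableSet_eq_fun (by fun_prop) (by fun_prop)).inter
      ((measurableSet_eq_fun (by fun_prop) (by fun_prop)).inter
        (measurableSet_eq_fun (by fun_prop) (by fun_prop))))

theorem dec_DD (x y : ℤ) (t : ℕ) : Dec (x, y) (DD x y t) := by
  rintro u v - hv ⟨h1, h2, h3, h4⟩ h
  have a1 := h (x + t, y)
  have a2 := h (x + t + 1, y)
  have a3 := h (x + t, y + 1)
  have a4 := h (x + t, y - 1)
  have b1 := (lip hv (x, y) (x + t, y)).1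
  have b2 := (lip hv (x, y) (x + t + 1, y)).1
  have b3 := (lip hv (x, y) (x + t, y + 1)).1
  have b4 := (lip hv (x, y) (x + t, y - 1)).1
  simp only [Int.abs_eq_natAbs] at b1 b2 b3 b4
  refine ⟨?_, ?_, ?_, ?_⟩ <;> omega

theorem DD_row {x y : ℤ} {t : ℕ} {f : Conf} (hf : Hom f) (h : f ∈ DD x y t) {i : ℤ} (h0 : 0 ≤ i)
    (hi : i ≤ t) : f (x + i, y) = f (x, y) - i ∧ f (x + i, y + 1) = f (x, y) - i - 1 ∧
      f (x + i, y - 1) = f (x, y) - i - 1 := by
  obtain ⟨h1, -, h3, h4⟩ := h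
  have a1 := (lip hf (x + i, y) (x + t, y)).1
  have a2 := (lip hf (x + i, y + 1) (x + t, y + 1)).1
  have a3 := (lip hf (x + i, y - 1) (x + t, y - 1)).1
  have b1 := (lip hf (x, y) (x + i, y)).1
  have b2 := (lip hf (x, y) (x + i, y + 1)).1
  have b3 := (lip hf (x, y) (x + i, y - 1)).1
  simp only [Int.abs_eq_natAbs] at a1 a2 a3 b1 b2 b3
  refine ⟨?_, ?_, ?_⟩ <;> omega

/-- the sites of the horizontal segment -/
noncomputable def seg (x y : ℤ) (t : ℕ) : Finset (ℤ × ℤ) := Icc x (x + t) ×ˢ {y}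

theorem mem_seg {x y : ℤ} {t : ℕ} {z : ℤ × ℤ} :
    z ∈ seg x y t ↔ (x ≤ z.1 ∧ z.1 ≤ x + t) ∧ z.2 = y := by
  rw [seg, mem_product, mem_Icc, mem_singleton]

theorem hom_seg {x y : ℤ} {t : ℕ} {f : Conf} (hf : Hom f) (h : f ∈ DD x y t)
    (hw : f (x - 1, y) < f (x, y)) : Hom (mv (seg x y t) (2 * -1) f) := by
  refine hom_mv (Or.inr rfl) hf fun u hu v hv huv => ?_
  rw [mem_seg] at hu hv
  obtain ⟨a, b⟩ := u
  obtain ⟨c, d⟩ := v
  simp only [Int.abs_eq_natAbs] at hu hv huv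
  obtain ⟨i, rfl⟩ : ∃ i, a = x + i := ⟨a - x, by omega⟩
  obtain rfl := hu.2
  obtain ⟨h1, h2, h3⟩ := DD_row hf h (i := i) (by omega) (by omega)
  have h4 := h.2.1
  have h5 := (lip hf (x, b) (x - 1, b)).1
  simp only [Int.abs_eq_natAbs] at h5
  have : (c = x + i ∧ d = b + 1) ∨ (c = x + i ∧ d = b - 1) ∨ (c = x - 1 ∧ d = b ∧ i = 0) ∨
      (c = x + t + 1 ∧ d = b ∧ i = t) := by omega
  rcases this with ⟨rfl, rfl⟩ | ⟨rfl, rfl⟩ | ⟨rfl, rfl, rfl⟩ | ⟨rfl, rfl, rfl⟩
  · omega
  · omega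
  · rw [add_zero]
    omega
  · omega

/-- the images of the flips determine the length -/
theorem seg_inj {x y : ℤ} {t t' : ℕ} {f g : Conf} (hf : Hom f) (hg : Hom g) (h : f ∈ DD x y t)
    (h' : g ∈ DD x y t') (e : mv (seg x y t) (2 * -1) f = mv (seg x y t') (2 * -1) g) : t = t' := by
  wlog hl : t ≤ t' generalizing t t' f g
  · exact (this hg hf h' h e.symm (by omega)).symm
  by_contra hne
  have e0 := congrFun e (x, y)
  have e1 := congrFun e (x + t + 1, y)
  rw [mv_in _ _ (mem_seg.2 (by simp)), mv_in _ _ (mem_seg.2 (by simp))] at e0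
  rw [mv_out _ _ (by simp [mem_seg]), mv_in _ _ (mem_seg.2 (by simp only [and_true]; omega)),
    h.2.1, add_assoc, (DD_row hg h' (i := t + 1) (by omega) (by omega)).1] at e1
  omega

/-- the chart with the corner square south east of (x, y - 1) -/
def ch (x y : ℤ) : ℤ × ℤ ≃ ℤ × ℤ where
  toFun p := (x + p.1 - 1, y - p.2)
  invFun q := (q.1 - x + 1, y - q.2)
  left_inv p := by ext <;> simp only <;> omega
  right_inv p := by ext <;> simp only <;> omega

theorem ch_apply (x y i j : ℤ) : ch x y (i, j) = (x + i - 1, y - j) := rfl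

theorem iso_ch (x y : ℤ) : H58.Iso (ch x y) := fun u v => by
  obtain ⟨a, b⟩ := u
  obtain ⟨c, d⟩ := v
  simp only [ch_apply, dist1, Int.abs_eq_natAbs]
  omega

theorem meas_wall (τ : ℤ × ℤ ≃ ℤ × ℤ) (σ : ℤ) (n : ℕ) (z : ℤ × ℤ) :
    MeasurableSet {f : Conf | Wall τ σ n (σ * f z + 1) f} := by
  have k : ∀ (u : ℤ × ℤ) (c : ℤ), Measurable fun f : Conf => σ * f u ≤ σ * f z + 1 - c :=
    fun u c => measurableSet_setOfPred.1 (measurableSet_le (by fun_prop) (by fun_prop))
  have k' : ∀ (u : ℤ × ℤ), Measurable fun f : Conf => σ * f u ≤ σ * f z + 1 + 1 - n :=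
    fun u => measurableSet_setOfPred.1 (measurableSet_le (by fun_prop) (by fun_prop))
  exact measurableSet_setOfPred.2 ((Measurable.forall fun i => measurable_const.imp
    (measurable_const.imp ((k _ _).and (k _ _)))).and ((k' _).and (k' _)))

/-- Row COR. B is an event of the rows up to y - n, decreasing from (x, y - n), on which the west
neighbour of (x, y - n) is lower. -/
theorem cor (hμ : Gibbs μ) (hT : Triv μ) (x y : ℤ) {n : ℕ} (hn : 1 ≤ n) {B : Set Conf}
    (hB : MeasurableSet B) (dB : Dec (x, y - n) B)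
    (oB : ∀ f g : Conf, (∀ z : ℤ × ℤ, z.2 ≤ y - n → f z = g z) → f ∈ B → g ∈ B)
    (wB : ∀ f, Hom f → f ∈ B → f (x - 1, y - n) < f (x, y - n)) (I : Finset ℕ)
    (hI : ∀ t ∈ I, n ≤ t + 1) :
    μ.real (B ∩ {f | f (x, y) = f (x, y - n) + n}) * ∑ t ∈ I, μ.real (DD x y t) ≤
      (1 / 2) ^ (n / 16) * μ.real (B ∩ {f | f (x, y) = f (x, y - n) + (n - 2)}) := by
  have mV := hB.inter (meas_eq (x, y) (x, y - n) n)
  have dV : Dec (x, y) (B ∩ {f | f (x, y) = f (x, y - n) + n}) := by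
    rintro u v hu hv ⟨h1, h2⟩ h
    have a1 := h (x, y - n)
    have a2 := (lip hv (x, y) (x, y - n)).1
    simp only [Set.mem_ofPred_eq, Int.abs_eq_natAbs] at h2 a2
    have a3 : v (x, y) = v (x, y - n) + n := by omega
    exact ⟨dB u v hu hv h1 fun z => by have := h z; omega, a3⟩
  set q : Conf → Prop := fun f => Wall (ch x y) 1 n (1 * f (ch x y (1, 0)) + 1) f ∧
    f ∈ B ∩ {f | f (x, y) = f (x, y - n) + (n - 2)} with hq
  have mq : MeasurableSet {f | q f} :=
    (meas_wall _ _ _ _).inter (hB.inter (meas_eq (x, y) (x, y - n) (n - 2)))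
  have h1 := corner_mu hμ (iso_ch x y) (σ := 1) (Or.inl rfl) n mq (fun f g h hf => ?_)
    fun f _ hf => hf.1
  · rw [mul_sum]
    refine (sum_le_sum fun t _ => paDec hμ hT mV (meas_DD x y t) dV (dec_DD x y t)).trans
      ((mv_sum hμ I (seg x y) (fun _ => 2 * -1) (fun t _ => mV.inter (meas_DD x y t))
        (F := {f | 1 * f (ch x y (1, 0)) < 1 * f (ch x y (1, 1)) ∧ q f})
        ((measurableSet_lt (f := fun f : Conf => 1 * f (ch x y (1, 0))) (by fun_prop)
          (by fun_prop)).inter mq) ?_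
        fun t _ t' _ f g hf hg a b e => seg_inj hf hg a.2 b.2 e).trans
      (h1.trans (mul_le_mul_of_nonneg_left (real_mono hμ fun f _ hf => hf.2) (by positivity))))
    rintro t ht f hf ⟨⟨a1, a2⟩, a3⟩
    have a4 := hI t ht
    have a5 := wB f hf a1
    simp only [Set.mem_ofPred_eq] at a2
    have col : ∀ j : ℤ, 0 ≤ j → j ≤ n → f (x, y - j) = f (x, y) - j ∧
        f (x - 1, y - j) ≤ f (x, y) - j - 1 := fun j j0 jn => by
      have b1 := (lip hf (x, y - j) (x, y - n)).1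
      have b2 := (lip hf (x, y) (x, y - j)).1
      have b3 := (lip hf (x - 1, y - j) (x - 1, y - n)).1
      simp only [Int.abs_eq_natAbs] at b1 b2 b3
      omega
    have c0 := (col 0 le_rfl (by omega)).2
    rw [sub_zero] at c0
    have e0 : mv (seg x y t) (2 * -1) f (x, y) = f (x, y) + 2 * -1 :=
      mv_in _ _ (mem_seg.2 (by simp))
    have e1 : ∀ a b : ℤ, b < y → mv (seg x y t) (2 * -1) f (a, b) = f (a, b) := fun a b h =>
      mv_out _ _ fun e => by have := (mem_seg.1 e).2; simp only at this; omega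
    refine ⟨hom_seg hf a3 (by omega), ?_, ⟨fun i i1 i2 => ⟨?_, ?_⟩, ?_, ?_⟩,
      oB f _ (fun z hz => (e1 z.1 z.2 (by omega)).symm) a1, ?_⟩
    · have := (col 1 (by omega) (by omega)).1
      simp only [ch_apply, add_sub_cancel_right, sub_zero, one_mul, e0, e1 x (y - 1) (by omega)]
      omega
    · have := (DD_row hf a3 (i := i - 1) (by omega) (by omega)).1
      simp only [ch_apply, add_sub_cancel_right, sub_zero, one_mul, e0]
      rw [mv_in _ _ (mem_seg.2 (by simp only [and_true]; omega)), add_sub_assoc]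
      omega
    · have := (col i (by omega) (by omega)).2
      simp only [ch_apply, add_sub_cancel_right, sub_zero, one_mul, e0, add_zero,
        e1 (x - 1) (y - i) (by omega)]
      omega
    · have := (DD_row hf a3 (i := n - 1) (by omega) (by omega)).2.2
      simp only [ch_apply, add_sub_cancel_right, sub_zero, one_mul, e0,
        e1 (x + n - 1) (y - 1) (by omega)]
      rw [add_sub_assoc]
      omega
    · simp only [ch_apply, add_sub_cancel_right, sub_zero, one_mul, e0, e1 x (y - n) (by omega)]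
      omega
    · simp only [Set.mem_ofPred_eq, e0, e1 x (y - n) (by omega)]
      omega
  · have k : ∀ i j : ℤ, i ≤ 0 ∨ n ≤ i ∨ j ≤ 0 ∨ n ≤ j →
        f (ch x y (i, j)) = g (ch x y (i, j)) := fun i j e =>
      h _ fun e' => by have := mem_sq.1 e'; simp only at this; omega
    obtain ⟨⟨w1, w2, w3⟩, b1, b2⟩ := hf
    have k0 := k 1 0 (by omega)
    have kn := k 1 n (by omega)
    refine ⟨⟨fun i i1 i2 => ?_, ?_, ?_⟩, oB f g (fun z hz => ?_) b1, ?_⟩
    · rw [← k0, ← k i 0 (by omega), ← k 0 i (by omega)]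
      exact w1 i i1 i2
    · rwa [← k0, ← k n 1 (by omega)]
    · rwa [← k0, ← kn]
    · have := k (z.1 - x + 1) (y - z.2) (by omega)
      rwa [ch_apply, show x + (z.1 - x + 1) - 1 = z.1 by ring, sub_sub_cancel] at this
    · simp only [ch_apply, add_sub_cancel_right, sub_zero] at k0 kn
      simp only [Set.mem_ofPred_eq] at b2 ⊢
      rwa [← k0, ← kn]

theorem real_T {τ : ℤ × ℤ ≃ ℤ × ℤ} {σ : ℤ} {S : Set Conf} (hS : MeasurableSet S) :
    (μ.map (FinalAux.T τ σ 0)).real S = μ.real {f | FinalAux.T τ σ 0 f ∈ S} := by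
  rw [measureReal_def, Measure.map_apply (FinalAux.meas_T τ σ 0) hS]
  rfl

/-- the same in any chart -/
theorem corT (hμ : Gibbs μ) (hT : Triv μ) {τ : ℤ × ℤ ≃ ℤ × ℤ} (hτ : FinalAux.Iso τ) {σ : ℤ}
    (hσ : σ * σ = 1) (x y : ℤ) {n : ℕ} (hn : 1 ≤ n) {B : Set Conf}
    (hB : MeasurableSet B) (dB : Dec (x, y - n) B)
    (oB : ∀ f g : Conf, (∀ z : ℤ × ℤ, z.2 ≤ y - n → f z = g z) → f ∈ B → g ∈ B)
    (wB : ∀ f, Hom f → f ∈ B → f (x - 1, y - n) < f (x, y - n)) (I : Finset ℕ)
    (hI : ∀ t ∈ I, n ≤ t + 1) :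
    μ.real {f | FinalAux.T τ σ 0 f ∈ B ∩ {f | f (x, y) = f (x, y - n) + n}} *
        ∑ t ∈ I, μ.real {f | FinalAux.T τ σ 0 f ∈ DD x y t} ≤
      (1 / 2) ^ (n / 16) *
        μ.real {f | FinalAux.T τ σ 0 f ∈ B ∩ {f | f (x, y) = f (x, y - n) + (n - 2)}} := by
  have h := cor (FinalAux.gibbs_T hμ hτ hσ 0) (H5.triv_T hT τ σ 0) x y hn hB dB oB wB I hI
  rw [real_T (hB.inter (meas_eq _ _ _)), real_T (hB.inter (meas_eq _ _ _))] at h
  simpa only [real_T (meas_DD x y _)] using h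

end Pool.Agent.MP_151d89_pr.H21
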