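import Pool.Agent.MP_151d89_pr.H21.Cor
import Pool.Agent.MP_151d89_pr.H45.Leg

/-!
The corner estimate for ridge legs and valley legs of towers.
-/

set_option autoImplicit false
open MeasureTheory Finset

namespace Pool.Agent.MP_151d89_pr.H21
open Pool.Agent.MP_151d89_pr.H82 Pool.Agent.MP_151d89_pr.H33 Pool.Agent.MP_151d89_pr.H67
  Pool.Agent.MP_151d89_pr.H30 Pool.Agent.MP_151d89_pr.H58 Pool.Agent.MP_151d89_pr.H45
  Pool.Agent.MP_151d89_pr.H27 Pool.Agent.MP_151d89_pr.H30W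
open Classical

variable {μ : Measure Conf}

/-- a ridge leg which stops ends a tower -/
theorem av_of_rdg {f : Conf} (hf : Hom f) {b : Bool} {s : ℤ × ℤ} {a c : ℕ} (h : Rdg b s a f)
    (hc : ¬ Run b s c f) : ∃ k, a ≤ k ∧ k < c ∧ Av (-1) (b, s, k) f := by
  have hex : ∃ k, ¬ Run b s k f := ⟨c, hc⟩
  have h1 := Nat.find_spec hex
  have h2 : Nat.find hex ≤ c := Nat.find_min' hex hc
  have h3 : a < Nat.find hex := by
    by_contra e
    exact h1 fun t ht => h.1 t (by omega)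
  obtain ⟨k, hk⟩ : ∃ k, Nat.find hex = k + 1 := ⟨Nat.find hex - 1, by omega⟩
  have h4 : Run b s k f := not_not.1 (Nat.find_min hex (by omega))
  rw [hk] at h1
  refine ⟨k, by omega, by omega, h4, ?_, ?_, fun t ht => ⟨?_, ?_⟩⟩
  · have := h.2.1
    simp only [pt, neg_smul, one_smul, ← sub_eq_add_neg]
    exact this
  · have h5 := NullP.step hf b (pt b s k)
    rw [← NullP.pt_succ, h4 k le_rfl] at h5
    refine (h5.resolve_left fun e => h1 fun t ht => ?_).trans (by ring)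
    rcases Nat.lt_or_ge t (k + 1) with e' | e'
    · exact h4 t (by omega)
    · obtain rfl : t = k + 1 := by omega
      push_cast
      rw [e, add_assoc]
  · exact NullP.side hf h4 (NullP.step hf _) h.2.2.1 t ht
  · rw [sub_eq_add_neg]
    exact NullP.side hf h4 (NullP.step' hf _) (by rw [← sub_eq_add_neg]; exact h.2.2.2) t ht

theorem meas_Rdg (b : Bool) (s : ℤ × ℤ) (m : ℕ) : MeasurableSet {f | Rdg b s m f} :=
  (meas_Run b s m).inter ((measurableSet_eq_fun (by fun_prop) (by fun_prop)).inter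
    ((measurableSet_eq_fun (by fun_prop) (by fun_prop)).inter
      (measurableSet_eq_fun (by fun_prop) (by fun_prop))))

theorem corR0 (hμ : Gibbs μ) (hT : Triv μ) (s : ℤ × ℤ) {m l : ℕ} (h1 : 1 ≤ l) (h2 : l ≤ m)
    (I : Finset ℕ) (hI : ∀ t ∈ I, l ≤ t + 1) :
    μ.real {f | Rdg false s m f} * ∑ t ∈ I, μ.real {f | Leg true (pt false s m) t f} ≤
      (1 / 2) ^ (l / 16) * ∑ j ∈ range l, μ.real {f | Av (-1) (false, s, m - 1 - j) f} := by
  obtain ⟨x, y⟩ := s
  have h := cor hμ hT x (y + m) h1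
    (B := {f | f (x, y + m - l) = f (x, y) + (m - l) ∧ f (x, y - 1) = f (x, y) + -1 ∧
      f (x + 1, y) = f (x, y) + -1 ∧ f (x - 1, y) = f (x, y) + -1})
    ((meas_eq _ _ _).inter ((meas_eq _ _ _).inter ((meas_eq _ _ _).inter (meas_eq _ _ _))))
    ?_ ?_ ?_ I hI
  · refine le_trans (mul_le_mul (real_mono hμ fun f _ hf => ?_)
      (sum_le_sum fun t _ => real_mono hμ fun f _ hf => ?_)
      (sum_nonneg fun _ _ => measureReal_nonneg) measureReal_nonneg)
      (h.trans (mul_le_mul_of_nonneg_left (real_cover hμ _ fun f hf a => ?_) (by positivity)))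
    · obtain ⟨a1, a2, a3, a4⟩ := hf
      have a5 := a1 m le_rfl
      have a6 := a1 (m - l) (by omega)
      simp only [pt_false, dir, Bool.not_false, Prod.mk_sub_mk, Prod.mk_add_mk, sub_zero, add_zero,
        Nat.cast_sub h2, ← add_sub_assoc] at a2 a3 a4 a5 a6
      simp only [Set.mem_inter_iff, Set.mem_ofPred_eq]
      omega
    · obtain ⟨a1, a2⟩ := hf
      have a3 := a1 t (by omega)
      have a4 := a1 (t + 1) le_rfl
      have a5 := a2 t le_rfl
      simp only [pt_false, pt_true, dir, Bool.not_true, Prod.mk_sub_mk, Prod.mk_add_mk, sub_zero,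
        add_zero, Nat.cast_add, Nat.cast_one, ← add_assoc] at a3 a4 a5
      exact ⟨a3, by omega, a5.1, a5.2⟩
    · obtain ⟨⟨a1, a2, a3, a4⟩, a5⟩ := a
      simp only [Set.mem_ofPred_eq] at a5
      have hR : Rdg false (x, y) (m - l) f := by
        refine ⟨fun t ht => ?_, ?_, ?_, ?_⟩
        · have b1 := (lip hf (x, y + t) (x, y)).1
          have b2 := (lip hf (x, y + m - l) (x, y + t)).1
          simp only [Int.abs_eq_natAbs] at b1 b2
          simp only [pt_false]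
          omega
        · simpa [dir, ← sub_eq_add_neg] using a2
        · simpa [dir, ← sub_eq_add_neg] using a3
        · simpa [dir, ← sub_eq_add_neg] using a4
      obtain ⟨k, k1, k2, k3⟩ := av_of_rdg hf hR (c := m) fun e => by
        have := e m le_rfl
        simp only [pt_false] at this
        omega
      refine ⟨m - 1 - k, mem_range.2 (by omega), ?_⟩
      rw [show m - 1 - (m - 1 - k) = k by omega]
      exact k3
  · rintro u v - hv ⟨a1, a2, a3, a4⟩ h
    have b1 := h (x, y)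
    have b2 := h (x, y - 1)
    have b3 := h (x + 1, y)
    have b4 := h (x - 1, y)
    have c1 := (lip hv (x, y + m - l) (x, y)).1
    have c2 := (lip hv (x, y) (x, y - 1)).1
    have c3 := (lip hv (x, y) (x + 1, y)).1
    have c4 := (lip hv (x, y) (x - 1, y)).1
    simp only [Int.abs_eq_natAbs] at c1 c2 c3 c4
    refine ⟨?_, ?_, ?_, ?_⟩ <;> omega
  · rintro f g h ⟨a1, a2, a3, a4⟩
    simp only [Set.mem_ofPred_eq]
    rw [← h (x, y + m - l) le_rfl, ← h (x, y) (by simp only; omega),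
      ← h (x, y - 1) (by simp only; omega), ← h (x + 1, y) (by simp only; omega),
      ← h (x - 1, y) (by simp only; omega)]
    exact ⟨a1, a2, a3, a4⟩
  · rintro f hf ⟨a1, -, -, a4⟩
    have c1 := (lip hf (x - 1, y + m - l) (x - 1, y)).1
    simp only [Int.abs_eq_natAbs] at c1
    omega

/-- exchanging the two coordinates -/
def sw (f : Conf) : Conf := FinalAux.T (Equiv.prodComm ℤ ℤ) 1 0 f

theorem iso_sw : FinalAux.Iso (Equiv.prodComm ℤ ℤ) := fun x y => by simp [add_comm]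

theorem rdg_sw (s : ℤ × ℤ) (m : ℕ) (f : Conf) : Rdg false s.swap m (sw f) ↔ Rdg true s m f := by
  obtain ⟨x, y⟩ := s
  simp [Rdg, Run, sw, FinalAux.T, pt_true, pt_false, dir]

theorem leg_sw (s : ℤ × ℤ) (m t : ℕ) (f : Conf) :
    Leg true (pt false s.swap m) t (sw f) ↔ Leg false (pt true s m) t f := by
  obtain ⟨x, y⟩ := s
  simp [Leg, sw, FinalAux.T, pt_true, pt_false, dir]

theorem av_sw (σ : ℤ) (s : ℤ × ℤ) (m : ℕ) (f : Conf) :
    Av σ (false, s.swap, m) (sw f) ↔ Av σ (true, s, m) f := by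
  obtain ⟨x, y⟩ := s
  simp [Av, Run, sw, FinalAux.T, pt_true, pt_false, dir]

/-- COR for ridge legs, finite sums -/
theorem corR (hμ : Gibbs μ) (hT : Triv μ) (b : Bool) (s : ℤ × ℤ) {m l : ℕ} (h1 : 1 ≤ l)
    (h2 : l ≤ m) (I : Finset ℕ) (hI : ∀ t ∈ I, l ≤ t + 1) :
    μ.real {f | Rdg b s m f} * ∑ t ∈ I, μ.real {f | Leg (!b) (pt b s m) t f} ≤
      (1 / 2) ^ (l / 16) * ∑ j ∈ range l, μ.real {f | Av (-1) (b, s, m - 1 - j) f} := by
  cases b
  · exact corR0 hμ hT s h1 h2 I hI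
  · have h := corR0 (FinalAux.gibbs_T hμ iso_sw (ε := 1) rfl 0) (H5.triv_T hT _ 1 0) s.swap
      h1 h2 I hI
    simp only [real_T (meas_Rdg _ _ _), real_T (meas_Dn _ _ _), real_T (meas_Av _ _),
      Set.mem_ofPred_eq] at h
    simpa only [← rdg_sw, ← av_sw, ← leg_sw, Bool.not_true, sw] using h

/-- the tail of a series of numbers between 0 and 1 -/
theorem tail_le {a : ℕ → ℝ} (h0 : ∀ t, 0 ≤ a t) (h1 : ∀ t, a t ≤ 1) {q c : ℝ} (hq : 0 ≤ q)
    (k : ℕ) (h : ∀ I : Finset ℕ, (∀ t ∈ I, k ≤ t) → q * ∑ t ∈ I, a t ≤ c) :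
    q * (∑' t, a t - k) ≤ c := by
  have hc : 0 ≤ c := by simpa using h ∅ (by simp)
  by_cases hs : Summable a
  · rw [mul_sub, ← tsum_mul_left, sub_le_iff_le_add]
    refine (hs.mul_left q).tsum_le_of_sum_le fun I => ?_
    rw [← mul_sum, ← sum_filter_add_sum_filter_not I fun t => k ≤ t, mul_add]
    refine add_le_add (h _ fun t ht => (mem_filter.1 ht).2) (mul_le_mul_of_nonneg_left ?_ hq)
    calc _ ≤ ∑ t ∈ range k, a t := sum_le_sum_of_subset_of_nonneg
          (fun t ht => mem_range.2 (not_le.1 (mem_filter.1 ht).2)) fun t _ _ => h0 t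
      _ ≤ ∑ t ∈ range k, 1 := sum_le_sum fun t _ => h1 t
      _ = k := by simp
  · rw [tsum_eq_zero_of_not_summable hs, zero_sub]
    exact (mul_nonpos_of_nonneg_of_nonpos hq (by simp)).trans hc

/-- COR for ridge legs -/
theorem corR_al (hμ : Gibbs μ) (hT : Triv μ) (b : Bool) (s : ℤ × ℤ) {m l : ℕ} (h2 : l + 1 ≤ m) :
    μ.real {f | Rdg b s m f} * (al μ (!b) (pt b s m) - l) ≤
      (1 / 2) ^ ((l + 1) / 16) *
        ∑ j ∈ range (l + 1), μ.real {f | Av (-1) (b, s, m - 1 - j) f} := by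
  have := hμ.1
  exact tail_le (fun _ => measureReal_nonneg) (fun _ => measureReal_le_one) measureReal_nonneg l
    fun I hI => corR hμ hT b s (by omega) h2 I fun t ht => by have := hI t ht; omega

theorem iso_neg : FinalAux.Iso (Equiv.neg (ℤ × ℤ)) := fun x y => by
  simp only [Equiv.neg_apply, Prod.fst_neg, Prod.snd_neg, Int.abs_eq_natAbs]
  omega

theorem T_neg (f : Conf) : FinalAux.T (Equiv.neg (ℤ × ℤ)) (-1) 0 f = NullP.rf f :=
  funext fun y => by simp [FinalAux.T, NullP.rf]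

theorem pt_neg' (b : Bool) (z : ℤ × ℤ) (t : ℤ) : -pt b (-z) t = pt b z (-t) := by
  simp [pt, add_comm]

theorem leg_rf {b : Bool} {z : ℤ × ℤ} {t : ℕ} {f : Conf} (h : Up b z t f) :
    Leg b (-z) t (NullP.rf f) := by
  refine ⟨fun j hj => ?_, fun j hj => ⟨?_, ?_⟩⟩
  · simp only [NullP.rf, pt_neg', neg_neg, h.1 j hj]
    ring
  · simp only [NullP.rf, neg_add, pt_neg', neg_neg, ← sub_eq_add_neg, (h.2 j hj).2]
  · simp only [NullP.rf, neg_sub', pt_neg', neg_neg, sub_neg_eq_add, (h.2 j hj).1]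
    ring

theorem rdg_rf {b : Bool} {y : ℤ × ℤ} {m : ℕ} {f : Conf} (h : Vly b y m f) :
    Rdg b (-y) m (NullP.rf f) := by
  obtain ⟨h1, h2, h3, h4⟩ := h
  refine ⟨?_, ?_, ?_, ?_⟩
  · have := NullP.run_rf h1
    rwa [NullP.pt_pt, neg_add_cancel, pt_zero] at this
  · simp only [NullP.rf, neg_sub', neg_neg, sub_neg_eq_add, h2]
    ring
  · simp only [NullP.rf, neg_add, neg_neg, ← sub_eq_add_neg, h4]
  · simp only [NullP.rf, neg_sub', neg_neg, sub_neg_eq_add, h3]
    ring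

/-- COR for valley legs, finite sums -/
theorem corV (hμ : Gibbs μ) (hT : Triv μ) (b : Bool) (y : ℤ × ℤ) {m l : ℕ} (h1 : 1 ≤ l)
    (h2 : l ≤ m) (I : Finset ℕ) (hI : ∀ t ∈ I, l ≤ t + 1) :
    μ.real {f | Vly b y m f} * ∑ t ∈ I, μ.real {f | Up (!b) (pt b y (-m)) t f} ≤
      (1 / 2) ^ (l / 16) *
        ∑ j ∈ range l, μ.real {f | Av 1 (b, pt b y (-(m - 1 - j : ℕ)), m - 1 - j) f} := by
  have h := corR (FinalAux.gibbs_T hμ iso_neg (ε := -1) rfl 0) (H5.triv_T hT _ (-1) 0) b (-y)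
    h1 h2 I hI
  simp only [real_T (meas_Rdg _ _ _), real_T (meas_Dn _ _ _), real_T (meas_Av _ _),
    Set.mem_ofPred_eq, T_neg] at h
  refine le_trans (mul_le_mul (real_mono hμ fun f _ hf => rdg_rf hf)
    (sum_le_sum fun t _ => real_mono hμ fun f _ hf => ?_)
    (sum_nonneg fun _ _ => measureReal_nonneg) measureReal_nonneg)
    (h.trans (mul_le_mul_of_nonneg_left (sum_le_sum fun j _ => real_mono hμ fun f _ hf => ?_)
      (by positivity)))
  · have := leg_rf hf
    rwa [← pt_neg', neg_neg] at this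
  · have := NullP.av_rf hf
    rwa [NullP.rf_rf, NullP.rm, neg_neg, pt_neg'] at this

/-- COR for valley legs -/
theorem corV_al (hμ : Gibbs μ) (hT : Triv μ) (b : Bool) (y : ℤ × ℤ) {m l : ℕ} (h2 : l + 1 ≤ m) :
    μ.real {f | Vly b y m f} * (al' μ (!b) (pt b y (-m)) - l) ≤
      (1 / 2) ^ ((l + 1) / 16) * ∑ j ∈ range (l + 1),
        μ.real {f | Av 1 (b, pt b y (-(m - 1 - j : ℕ)), m - 1 - j) f} := by
  have := hμ.1
  exact tail_le (fun _ => measureReal_nonneg) (fun _ => measureReal_le_one) measureReal_nonneg l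
    fun I hI => corV hμ hT b y (by omega) h2 I fun t ht => by have := hI t ht; omega

end Pool.Agent.MP_151d89_pr.H21
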