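import Pool.Agent.MP_151d89_pr.H58.All3

/-!
The corner bound: with two tight outer walls of length n, the corner site is a local maximum with
probability at most 2 ^ (-(n / 16)).
-/

set_option autoImplicit false
open MeasureTheory Finset

namespace Pool.Agent.MP_151d89_pr.H21
open Pool.Agent.MP_151d89_pr.H82 Pool.Agent.MP_151d89_pr.H33 Pool.Agent.MP_151d89_pr.H67
  Pool.Agent.MP_151d89_pr.H30 Pool.Agent.MP_151d89_pr.H58
open Classical

/-- the open square (a,b)² -/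
noncomputable def sq (a b : ℤ) : Finset (ℤ × ℤ) := Ioo a b ×ˢ Ioo a b

theorem mem_sq {a b : ℤ} {y : ℤ × ℤ} :
    y ∈ sq a b ↔ (a < y.1 ∧ y.1 < b) ∧ a < y.2 ∧ y.2 < b := by
  simp [sq]

/-- the maximal domain wall configuration -/
def gm : Conf := fun z => -|z.1 - z.2|

theorem hom_gm : Hom gm := fun x y h => by
  simp only [gm, Int.abs_eq_natAbs] at h ⊢
  omega

theorem le_gm {a b : ℤ} {f : Conf} (hf : f ∈ FS (sq a b) gm) (y : ℤ × ℤ) : f y ≤ gm y := by
  obtain ⟨h1, h2⟩ := mem_FS.1 hf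
  by_cases hy : y ∈ sq a b
  · have h3 := (lip h1 y (y.1, a)).1
    have h4 := (lip h1 y (a, y.2)).1
    rw [h2 (y.1, a) fun e => by simp [mem_sq] at e] at h3
    rw [h2 (a, y.2) fun e => by simp [mem_sq] at e] at h4
    rw [mem_sq] at hy
    simp only [gm, Int.abs_eq_natAbs] at h3 h4 ⊢
    omega
  · exact (h2 y hy).le

theorem filt (a b : ℤ) :
    ((FS (sq a b) gm).filter fun f => 0 ≤ f (a + 1, a + 1)) = FS (sq (a + 1) b) gm := by
  ext f
  rw [mem_filter]
  constructor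
  · rintro ⟨hf, h0⟩
    obtain ⟨h1, h2⟩ := mem_FS.1 hf
    refine mem_FS.2 ⟨h1, fun y hy => ?_⟩
    by_cases e : y ∈ sq a b
    · have h3 := le_gm hf y
      have h4 := (lip h1 (a + 1, a + 1) y).1
      rw [mem_sq] at hy e
      simp only [gm, Int.abs_eq_natAbs] at h3 h4 ⊢
      omega
    · exact h2 y e
  · intro hf
    obtain ⟨h1, h2⟩ := mem_FS.1 hf
    refine ⟨mem_FS.2 ⟨h1, fun y hy => h2 y fun e => hy ?_⟩, ?_⟩
    · rw [mem_sq] at e ⊢
      omega
    · rw [h2 _ fun e => by simp [mem_sq] at e]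
      simp [gm]

/-- the probability that the corner is high under domain wall boundary conditions -/
noncomputable def rr (a b : ℤ) : ℝ := av (sq a b) (fun f => ind (0 ≤ f (a + 1, a + 1))) gm

theorem rr_nonneg (a b : ℤ) : 0 ≤ rr a b := av_nonneg (fun _ => (ind_mem _).1) _

theorem mono_ind (y : ℤ × ℤ) (t : ℤ) : Monotone fun f : Conf => ind (t ≤ f y) := fun u v h => by
  by_cases e : t ≤ u y
  · simp only [ind_pos e, ind_pos (e.trans (h y)), le_refl]
  · simp only [ind_neg e]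
    exact (ind_mem _).1

theorem rr_succ (a b : ℤ) : rr a (b + 1) ≤ rr a b := by
  have hs : sq a b ⊆ sq a (b + 1) := fun y hy => by
    rw [mem_sq] at hy ⊢
    omega
  rw [rr, ← av_tower hs, ← av_const (sq a (b + 1)) (rr a b) hom_gm]
  refine av_le fun f hf => av_mono (mem_FS.1 hf).1 hom_gm (z := (a, a)) ?_
    (fun y _ => le_gm hf y) (mono_ind _ _)
  rw [(mem_FS.1 hf).2 _ fun e => by simp [mem_sq] at e]
  simp

theorem rr_shift (a b : ℤ) : rr (a + 1) (b + 1) = rr a b := by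
  have h := av_tr (iso_add (1, 1)) (σ := 1) (Or.inl rfl) 0 (Λ := sq (a + 1) (b + 1)) (Λ' := sq a b)
    (fun y => by
      simp only [mem_sq, Equiv.coe_addRight, Prod.fst_add, Prod.snd_add]
      omega) (fun f => ind (0 ≤ f (a + 1, a + 1))) gm
  have e : tr (Equiv.addRight ((1, 1) : ℤ × ℤ)) 1 0 gm = gm := funext fun y => by simp [tr, gm]
  rw [e] at h
  rw [rr, rr, h]
  exact av_eq fun f _ => by simp [tr]

theorem rr_le (a b : ℤ) (k : ℕ) : rr a b ≤ rr (a + k) b := by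
  induction k with
  | zero => simp
  | succ k ih =>
    refine ih.trans ?_
    rw [← rr_shift]
    push_cast
    rw [← add_assoc]
    exact rr_succ _ _

theorem rr_anti (a b : ℤ) (k : ℕ) : rr a (b + k) ≤ rr a b := by
  induction k with
  | zero => simp
  | succ k ih =>
    refine le_trans ?_ ih
    push_cast
    rw [← add_assoc]
    exact rr_succ _ _

theorem rr_card (a b : ℤ) :
    rr a b * (FS (sq a b) gm).card = (FS (sq (a + 1) b) gm).card := by
  rw [rr, H58.av_ind, div_mul_cancel₀ _ (card_pos _ hom_gm).ne', ← filt]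
  congr

theorem rr_pow (a b : ℤ) (k : ℕ) :
    rr a b ^ k * (FS (sq a b) gm).card ≤ (FS (sq (a + k) b) gm).card := by
  induction k with
  | zero => simp
  | succ k ih =>
    push_cast
    rw [← add_assoc, ← rr_card, pow_succ', mul_assoc]
    exact mul_le_mul (rr_le a b k) ih (mul_nonneg (pow_nonneg (rr_nonneg _ _) _) (Nat.cast_nonneg _))
      (rr_nonneg _ _)

theorem ent (k : ℕ) : 2 ^ (k ^ 2) ≤ (FS (sq 0 (4 * k)) gm).card := by
  set lo' : Conf := fun y => -(4 * k) + |y.1 + y.2 - 4 * k| with hlo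
  set zz : Conf := fun y => -(2 * k) - (y.1 + y.2) % 2 with hzz
  have h1 : Hom lo' := fun x y h => by
    simp only [hlo, Int.abs_eq_natAbs] at h ⊢
    omega
  have h2 : Hom zz := fun x y h => by
    simp only [hzz, Int.abs_eq_natAbs] at h ⊢
    omega
  have h3 : Hom (gm ⊓ zz) := hom_inf hom_gm h2 (z := (0, 0)) (by simp [gm, hzz])
  have h4 : Hom (lo' ⊔ (gm ⊓ zz)) := hom_sup h1 h3 (z := (0, 0)) (by
    simp only [hlo, hzz, gm, Pi.inf_apply, Int.abs_eq_natAbs]
    omega)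
  have h5 : rep (sq 0 (4 * k)) (lo' ⊔ (gm ⊓ zz)) gm ∈ FS (sq 0 (4 * k)) gm := by
    have := CmpAux.rep_fill (Λ := sq 0 (4 * k)) h4 hom_gm fun x hx y hy h => by
      rw [mem_sq] at hx hy
      simp only [hlo, hzz, gm, Pi.inf_apply, Pi.sup_apply, Int.abs_eq_natAbs] at h ⊢
      omega
    exact mem_FS.2 this
  set Y : Finset (ℤ × ℤ) := (range k ×ˢ range k).image
    fun p => ((k : ℤ) + 1 + 2 * p.1, (k : ℤ) + 1 + 2 * p.2) with hY
  have hc : Y.card = k ^ 2 := by
    rw [hY, card_image_of_injective _ fun p q h => by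
      simp only [Prod.mk.injEq] at h
      ext <;> omega]
    simp [pow_two]
  have hm : ∀ y ∈ Y, (y.1 + y.2) % 2 = 0 ∧ (k < y.1 ∧ y.1 < 3 * k) ∧ k < y.2 ∧ y.2 < 3 * k := by
    intro y hy
    obtain ⟨p, hp, rfl⟩ := mem_image.1 hy
    simp only [mem_product, mem_range] at hp ⊢
    omega
  have h6 := flip_row (FS (sq 0 (4 * k)) gm) Y (fun _ => -1) (fun y hy => (hm y hy).1)
    (fun _ => Or.inr rfl) fun a ha y hy τ hτ he => by
      obtain ⟨a1, a2⟩ := mem_FS.1 ha
      have hy' := hm y hy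
      refine mem_FS.2 ⟨fun u v h => ?_, fun x hx => ?_⟩
      · by_cases e1 : u = y
        · subst e1
          have e2 : v ≠ u := fun e => by simp [e] at h
          rw [Function.update_self, Function.update_of_ne e2, he v h]
          rcases hτ with rfl | rfl <;> simp
        · by_cases e2 : v = y
          · subst e2
            rw [Function.update_self, Function.update_of_ne e1,
              he u (by rwa [abs_sub_comm v.1, abs_sub_comm v.2])]
            rcases hτ with rfl | rfl <;> simp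
          · rw [Function.update_of_ne e1, Function.update_of_ne e2]
            exact a1 u v h
      · rw [Function.update_of_ne, a2 x hx]
        rintro rfl
        exact hx (mem_sq.2 (by omega))
  rw [hc] at h6
  refine le_trans (Nat.le_mul_of_pos_left _ (Finset.card_pos.2 ⟨_, mem_filter.2 ⟨h5, ?_⟩⟩)) h6
  intro y hy y' h
  have hy' := hm y hy
  simp only [Int.abs_eq_natAbs] at h
  have e1 : y ∈ sq 0 (4 * k) := mem_sq.2 (by omega)
  have e2 : y' ∈ sq 0 (4 * k) := mem_sq.2 (by omega)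
  simp only [rep, e1, e2, if_true, hlo, hzz, gm, Pi.inf_apply, Pi.sup_apply, Int.abs_eq_natAbs]
  omega

theorem rr_bound (n : ℕ) : rr 0 n ≤ (1 / 2) ^ (n / 16) := by
  obtain ⟨j, hj⟩ : ∃ j, j = n / 16 := ⟨_, rfl⟩
  rw [← hj]
  rcases Nat.eq_zero_or_pos j with rfl | h0
  · rw [pow_zero]
    exact (le_abs_self _).trans (av_abs (fun f => ind_abs _) gm)
  · have h1 : rr 0 n ≤ rr 0 (4 * (4 * j : ℕ)) := by
      have := rr_anti 0 (4 * (4 * j : ℕ)) (n - 16 * j)
      rwa [show (4 * (4 * j : ℕ) : ℤ) + (n - 16 * j : ℕ) = n by omega] at this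
    have h2 := rr_pow 0 (4 * (4 * j : ℕ)) (16 * j)
    have h3 := H58.card_le (sq (0 + (16 * j : ℕ)) (4 * (4 * j : ℕ))) gm
    have e : sq (0 + (16 * j : ℕ)) (4 * (4 * j : ℕ)) = ∅ :=
      eq_empty_of_forall_notMem fun y hy => by
        rw [mem_sq] at hy
        omega
    rw [e] at h2 h3
    have h4 : ((2 : ℝ) ^ j) ^ (16 * j) ≤ (FS (sq 0 (4 * (4 * j : ℕ))) gm).card := by
      rw [← pow_mul, show j * (16 * j) = (4 * j) ^ 2 by ring]
      exact_mod_cast ent (4 * j)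
    have h5 : (rr 0 (4 * (4 * j : ℕ)) * 2 ^ j) ^ (16 * j) ≤ 1 := by
      rw [mul_pow]
      refine (mul_le_mul_of_nonneg_left h4 (pow_nonneg (rr_nonneg _ _) _)).trans (h2.trans ?_)
      exact_mod_cast h3
    have h6 := (pow_le_one_iff_of_nonneg (mul_nonneg (rr_nonneg _ _) (by positivity))
      (by omega)).1 h5
    refine h1.trans ?_
    rw [one_div, inv_pow, ← one_div, le_div_iff₀ (by positivity)]
    exact h6

/-- averages of functions of the values in D depend on the boundary values only -/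
theorem av_loc {D : Finset (ℤ × ℤ)} {f f' : Conf} (hf : Hom f) (hf' : Hom f') {φ : Conf → ℝ}
    (hφ : ∀ a b : Conf, (∀ y ∈ D, a y = b y) → φ a = φ b) (h : ∀ y, Bdy D y → f y = f' y) :
    av D φ f = av D φ f' := by
  rw [av_local (Δ := D ∪ (D.biUnion fun y => box y 1).filter (Bdy D)) (fun y hy =>
    ⟨mem_union_left _ hy, fun z hz => ?_⟩) _ hf' hf fun y hy => h y ?_]
  · exact av_eq (φ := fun b => φ (rep D b f)) fun b _ => hφ _ _ fun y hy => by simp [rep, hy]
  · by_cases e : z ∈ D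
    · exact mem_union_left _ e
    · refine mem_union_right _ (mem_filter.2 ⟨mem_biUnion.2 ⟨y, hy, mem_box.2 ?_⟩, e, y, hy, ?_⟩)
      · simp only [Int.abs_eq_natAbs] at hz
        omega
      · rwa [dist1, abs_sub_comm z.1, abs_sub_comm z.2]
  · rw [Finset.mem_sdiff, Finset.mem_union] at hy
    exact (mem_filter.1 (hy.1.resolve_left hy.2)).2

theorem corner0 (n : ℕ) {g : Conf} (hg : Hom g) (hb : ∀ y, Bdy (sq 0 n) y → g y ≤ gm y) :
    av (sq 0 n) (fun f => ind (0 ≤ f (1, 1))) g ≤ (1 / 2) ^ (n / 16) := by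
  rcases lt_or_ge n 16 with h | h
  · rw [Nat.div_eq_of_lt h, pow_zero]
    exact (le_abs_self _).trans (av_abs (fun f => ind_abs _) g)
  have h1 : ((1, 1) : ℤ × ℤ) ∈ sq 0 n := mem_sq.2 (by simp only; omega)
  have h2 : ((0, 1) : ℤ × ℤ) ∉ sq 0 n := fun e => by simp [mem_sq] at e
  by_cases e : (g (0, 1) - gm (0, 1)) % 2 = 0
  · have h3 := hom_inf hg hom_gm e
    rw [av_loc hg h3 (fun a b hab => by rw [hab _ h1]) fun y hy => (inf_eq_left.2 (hb y hy)).symm]
    refine le_trans (av_mono h3 hom_gm (z := (0, 1)) ?_ (fun y _ => inf_le_right (a := g) y)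
      (mono_ind _ _)) (by simpa [rr] using rr_bound n)
    rw [Pi.inf_apply]
    omega
  · refine (av_eq (ψ := fun _ => 0) fun a ha => ind_neg fun h0 => ?_).trans_le ?_
    · have h3 := hb (0, 1) ⟨h2, (1, 1), h1, by simp [dist1]⟩
      have h4 := (lip (mem_FS.1 ha).1 (1, 1) (0, 1)).1
      rw [(mem_FS.1 ha).2 _ h2] at h4
      simp only [gm, Int.abs_eq_natAbs] at h3 h4 e
      omega
    · rw [av_const _ _ hg]
      positivity

/-- In the chart τ, with sign σ: the two outer sides of the square (0,n)² through the corner (0,0)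
descend at full speed from the level h, and so do the two sites that prolong the inner sides. -/
def Wall (τ : ℤ × ℤ ≃ ℤ × ℤ) (σ : ℤ) (n : ℕ) (h : ℤ) (f : Conf) : Prop :=
  (∀ i : ℤ, 1 ≤ i → i < n → σ * f (τ (i, 0)) ≤ h - i ∧ σ * f (τ (0, i)) ≤ h - i) ∧
    σ * f (τ (n, 1)) ≤ h + 1 - n ∧ σ * f (τ (1, n)) ≤ h + 1 - n

/-- the corner bound in the square, any chart -/
theorem corner {τ : ℤ × ℤ ≃ ℤ × ℤ} (hτ : H58.Iso τ) {σ : ℤ} (hσ : σ = 1 ∨ σ = -1) (n : ℕ) (h : ℤ)
    {Λ : Finset (ℤ × ℤ)} (hΛ : ∀ y, y ∈ sq 0 n ↔ τ y ∈ Λ) {g : Conf} (hg : Hom g)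
    (hw : Wall τ σ n h g) :
    av Λ (fun f => ind (h ≤ σ * f (τ (1, 1)))) g ≤ (1 / 2) ^ (n / 16) := by
  have h1 := hom_tr hτ hσ (-h) hg
  have h2 := corner0 n h1 fun y hy => by
    obtain ⟨a1, y', a2, a3⟩ := hy
    obtain ⟨w1, w2, w3⟩ := hw
    have b1 := w1 y.1
    have b2 := w1 y.2
    have b3 := (lip h1 y (n, 1)).1
    have b4 := (lip h1 y (1, n)).1
    rw [mem_sq] at a1 a2
    obtain ⟨i, j⟩ := y
    simp only [dist1, gm, tr, Int.abs_eq_natAbs] at *
    by_cases e1 : i = 0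
    · subst e1
      omega
    · by_cases e2 : j = 0
      · subst e2
        omega
      · omega
  rw [av_tr hτ hσ (-h) hΛ] at h2
  exact (av_eq fun f _ => by simp [tr]).trans_le h2

/-- the image of the square -/
noncomputable def sqT (τ : ℤ × ℤ ≃ ℤ × ℤ) (n : ℕ) : Finset (ℤ × ℤ) := (sq 0 n).map τ.toEmbedding

theorem mem_sqT {τ : ℤ × ℤ ≃ ℤ × ℤ} {n : ℕ} (y : ℤ × ℤ) : y ∈ sq 0 n ↔ τ y ∈ sqT τ n :=
  (mem_map' τ.toEmbedding).symm

theorem corner_out {τ : ℤ × ℤ ≃ ℤ × ℤ} (hτ : H58.Iso τ) {σ : ℤ} (hσ : σ = 1 ∨ σ = -1) (n : ℕ)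
    {q : Conf → Prop}
    (ho : ∀ f g : Conf, (∀ y, y ∉ sq 0 n → f (τ y) = g (τ y)) → q f → q g)
    (hw : ∀ f, Hom f → q f → Wall τ σ n (σ * f (τ (1, 0)) + 1) f) (g : Conf) (hq : q g) :
    av (sqT τ n) (fun f => ind (σ * f (τ (1, 0)) < σ * f (τ (1, 1)))) g ≤ (1 / 2) ^ (n / 16) := by
  rcases (FS (sqT τ n) g).eq_empty_or_nonempty with e | ⟨a, ha⟩
  · rw [av, e]
    simp
  · obtain ⟨a1, a2⟩ := mem_FS.1 ha
    rw [← av_congr _ a2]
    refine (av_eq fun f hf => ?_).trans_le (corner hτ hσ n _ mem_sqT a1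
      (hw a a1 (ho g a (fun y hy => (a2 _ fun e => hy ((mem_sqT y).2 e)).symm) hq)))
    rw [(mem_FS.1 hf).2 (τ (1, 0)) fun e => by simpa [mem_sq] using (mem_sqT _).2 e]
    rfl

/-- the corner bound for a Gibbs measure, relative to an event q outside the square that implies
the walls -/
theorem corner_mu {μ : Measure Conf} (hμ : Gibbs μ) {τ : ℤ × ℤ ≃ ℤ × ℤ} (hτ : H58.Iso τ) {σ : ℤ}
    (hσ : σ = 1 ∨ σ = -1) (n : ℕ) {q : Conf → Prop} (hq : MeasurableSet {f | q f})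
    (ho : ∀ f g : Conf, (∀ y, y ∉ sq 0 n → f (τ y) = g (τ y)) → q f → q g)
    (hw : ∀ f, Hom f → q f → Wall τ σ n (σ * f (τ (1, 0)) + 1) f) :
    μ.real {f | σ * f (τ (1, 0)) < σ * f (τ (1, 1)) ∧ q f} ≤
      (1 / 2) ^ (n / 16) * μ.real {f | q f} := by
  refine FinalP.int_out hμ (sqT τ n) (measurableSet_lt (by fun_prop) (by fun_prop)) hq
    (fun f g h => ⟨ho f g fun y hy => h _ fun e => hy ((mem_sqT y).2 e),
      ho g f fun y hy => (h _ fun e => hy ((mem_sqT y).2 e)).symm⟩) (corner_out hτ hσ n ho hw)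

/-- the same in a finite volume containing the square -/
theorem corner_av {τ : ℤ × ℤ ≃ ℤ × ℤ} (hτ : H58.Iso τ) {σ : ℤ} (hσ : σ = 1 ∨ σ = -1) (n : ℕ)
    {q : Conf → Prop}
    (ho : ∀ f g : Conf, (∀ y, y ∉ sq 0 n → f (τ y) = g (τ y)) → q f → q g)
    (hw : ∀ f, Hom f → q f → Wall τ σ n (σ * f (τ (1, 0)) + 1) f) {Λ : Finset (ℤ × ℤ)}
    (hΛ : sqT τ n ⊆ Λ) (g : Conf) :
    av Λ (fun f => ind (σ * f (τ (1, 0)) < σ * f (τ (1, 1)) ∧ q f)) g ≤
      (1 / 2) ^ (n / 16) * av Λ (fun f => ind (q f)) g := by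
  rw [← av_tower hΛ, ← av_smul]
  refine av_le fun f _ => ?_
  by_cases e : q f
  · rw [ind_pos e, mul_one]
    refine (av_eq fun a ha => ?_).trans_le (corner_out hτ hσ n ho hw f e)
    simp only [ho f a (fun y hy => ((mem_FS.1 ha).2 _ fun e => hy ((mem_sqT y).2 e)).symm) e,
      and_true]
  · rw [ind_neg e, mul_zero]
    exact (av_eq (ψ := fun _ => 0) fun a ha => ind_neg fun e' =>
      e (ho a f (fun y hy => (mem_FS.1 ha).2 _ fun e => hy ((mem_sqT y).2 e)) e'.2)).trans_le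
        (by simp [av])

theorem half_exp (n : ℕ) : (1 / 2 : ℝ) ^ (n / 16) ≤ 2 * Real.exp (-(n / 24)) := by
  have h1 : Real.exp (2 / 3) ≤ 2 := by
    have := Real.log_two_gt_d9
    calc Real.exp (2 / 3) ≤ Real.exp (Real.log 2) := Real.exp_le_exp.2 (by linarith)
      _ = 2 := Real.exp_log two_pos
  have h2 : (n : ℝ) ≤ 16 * ((n / 16 + 1 : ℕ) : ℝ) := by
    exact_mod_cast (by omega : n ≤ 16 * (n / 16 + 1))
  have h3 : Real.exp (n / 24) ≤ 2 ^ (n / 16 + 1) :=
    calc Real.exp (n / 24) ≤ Real.exp ((n / 16 + 1 : ℕ) * (2 / 3)) :=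
          Real.exp_le_exp.2 (by linarith)
      _ ≤ _ := by
        rw [Real.exp_nat_mul]
        exact pow_le_pow_left₀ (Real.exp_pos _).le h1 _
  rw [Real.exp_neg, ← div_eq_mul_inv, le_div_iff₀ (Real.exp_pos _)]
  refine (mul_le_mul_of_nonneg_left h3 (by positivity)).trans (le_of_eq ?_)
  rw [pow_succ, ← mul_assoc, ← mul_pow]
  norm_num

end Pool.Agent.MP_151d89_pr.H21
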